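import Mathlib

set_option autoImplicit false

/-! Sets of primes have at most `2 x / log x` elements; changing the exponent, helper248. -/

namespace Pool.Agent.Q248.DP

open Finset Filter Topology

lemma alpha_le : ∀ᶠ x : ℝ in atTop, ∀ P : Finset ℕ, (∀ p ∈ P, p.Prime ∧ (p : ℝ) ≤ x) →
    (P.card : ℝ) * Real.log x / x ≤ 2 := by
  filter_upwards [Chebyshev.eventually_primeCounting_le (ε := 1 / 2) (by norm_num), eventually_ge_atTop (3:ℝ)]
    with x h1 h2 P hP
  have hx0 : 0 < x := by linarith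
  have hlog : 0 < Real.log x := Real.log_pos (by linarith)
  have hsub : P.card ≤ Nat.primeCounting ⌊x⌋₊ := by
    rw [Nat.primeCounting, Nat.primeCounting', Nat.count_eq_card_filter_range]
    apply card_le_card
    intro p hp
    rw [mem_filter, mem_range]
    exact ⟨Nat.lt_succ_of_le (Nat.le_floor (hP p hp).2), (hP p hp).1⟩
  have h3 : (P.card : ℝ) ≤ (Nat.primeCounting ⌊x⌋₊ : ℝ) := by exact_mod_cast hsub
  have h4 : Real.log 4 ≤ 3 / 2 := by
    have : Real.log 4 = 2 * Real.log 2 := by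
      rw [show (4:ℝ) = 2 ^ 2 by norm_num, Real.log_pow]; norm_num
    rw [this]
    have := Real.log_two_lt_d9
    linarith
  have h5 : (P.card : ℝ) ≤ 2 * x / Real.log x := by
    refine h3.trans (h1.trans ?_)
    apply div_le_div_of_nonneg_right _ hlog.le
    nlinarith
  rw [div_le_iff₀ hx0]
  rw [le_div_iff₀ hlog] at h5
  exact h5

/-- changing the exponent -/
lemma exponent {b M δ : ℝ} {n : ℕ} (hn : 1 ≤ n) (hb : 0 ≤ b) (hbM : b ≤ M) (hM : 1 ≤ M) (hδ : 1 / (n : ℝ) ≤ δ) :
    (M ^ δ)⁻¹ * b ^ (1 + δ) ≤ b ^ (1 + 1 / (n : ℝ)) := by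
  have hn0 : (0:ℝ) < n := by exact_mod_cast hn
  have hδ0 : 0 < δ := lt_of_lt_of_le (by positivity) hδ
  rcases hb.eq_or_lt with h | h
  · rw [← h, Real.zero_rpow (by positivity), Real.zero_rpow (by positivity), mul_zero]
  have hM0 : 0 < M := by linarith
  rw [inv_mul_le_iff₀ (by positivity)]
  have e : b ^ (1 + δ) = b ^ (δ - 1 / (n : ℝ)) * b ^ (1 + 1 / (n : ℝ)) := by
    rw [← Real.rpow_add h]; congr 1; ring
  rw [e]
  apply mul_le_mul_of_nonneg_right _ (by positivity)
  calc b ^ (δ - 1 / (n : ℝ)) ≤ M ^ (δ - 1 / (n : ℝ)) := Real.rpow_le_rpow hb hbM (by linarith)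
    _ ≤ M ^ δ := by
        apply Real.rpow_le_rpow_of_exponent_le hM
        have : 0 < 1 / (n : ℝ) := by positivity
        linarith

end Pool.Agent.Q248.DP
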