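import Mathlib
import Pool.Agent.TH891.SG.Pr2

set_option autoImplicit false

/-! Patterns inside coloured arbitrary sets of primes: convexity, sieve and the singular series, helper248. -/

namespace Pool.Agent.Q248.DP

open Finset Filter Topology Pool.Agent.H387R2

/-- the number of `n ∈ (a, b]` such that all `n + t`, `t ∈ T`, belong to `S` and have one colour -/
def mcnt (S : Finset ℕ) (col : ℕ → ℕ) (a b : ℕ) (T : Finset ℕ) : ℕ :=
  ((Ioc a b).filter (fun n => (∀ t ∈ T, n + t ∈ S) ∧ ∀ t ∈ T, ∀ t' ∈ T, col (n + t) = col (n + t'))).card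

/-- double counting of the elements of `S` in the translates of `A` -/
lemma count_low (k N M : ℕ) (hMN : M ≤ N) (A S : Finset ℕ) (hA : ∀ t ∈ A, t ≤ M) (hS : S ⊆ Icc 1 N) :
    (A.card : ℝ) * ((S.card : ℝ) - M - (k + 1)) ≤
      ∑ n ∈ Ioc (k + 1) (N - M), ((A.filter (fun t => n + t ∈ S)).card : ℝ) := by
  classical
  have e1 : ∑ n ∈ Ioc (k + 1) (N - M), ((A.filter (fun t => n + t ∈ S)).card : ℝ) =
      ∑ t ∈ A, (((Ioc (k + 1) (N - M)).filter (fun n => n + t ∈ S)).card : ℝ) := by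
    simp_rw [card_filter]
    push_cast
    rw [sum_comm]
  rw [e1]
  have h1 : ∀ t ∈ A, ((S.card : ℝ) - M - (k + 1)) ≤
      (((Ioc (k + 1) (N - M)).filter (fun n => n + t ∈ S)).card : ℝ) := by
    intro t ht
    have htM := hA t ht
    have h2 : S.card ≤
        ((Icc 1 (k + 1 + t)) ∪ ((Ioc (N - M + t) N) ∪
          ((Ioc (k + 1) (N - M)).filter (fun n => n + t ∈ S)).image (· + t))).card := by
      apply card_le_card
      intro p hp
      have hp1 := mem_Icc.1 (hS hp)
      rw [mem_union, mem_union, mem_Icc, mem_Ioc, mem_image]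
      by_cases a1 : p ≤ k + 1 + t
      · left; exact ⟨hp1.1, a1⟩
      · by_cases a2 : N - M + t < p
        · right; left; exact ⟨a2, hp1.2⟩
        · right; right
          refine ⟨p - t, ?_, by omega⟩
          rw [mem_filter, mem_Ioc]
          have e : p - t + t = p := by omega
          rw [e]
          exact ⟨by omega, hp⟩
    have h3 := (card_union_le (Icc 1 (k + 1 + t)) ((Ioc (N - M + t) N) ∪
          ((Ioc (k + 1) (N - M)).filter (fun n => n + t ∈ S)).image (· + t)))
    have h4 := card_union_le (Ioc (N - M + t) N)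
          (((Ioc (k + 1) (N - M)).filter (fun n => n + t ∈ S)).image (· + t))
    have h5 : (((Ioc (k + 1) (N - M)).filter (fun n => n + t ∈ S)).image (· + t)).card ≤
        ((Ioc (k + 1) (N - M)).filter (fun n => n + t ∈ S)).card := card_image_le
    rw [Nat.card_Icc] at h3
    rw [Nat.card_Ioc] at h4
    have h6 : S.card ≤ ((Ioc (k + 1) (N - M)).filter (fun n => n + t ∈ S)).card + M + (k + 1) := by omega
    have h7 : (S.card : ℝ) ≤
        (((Ioc (k + 1) (N - M)).filter (fun n => n + t ∈ S)).card : ℝ) + M + (k + 1) := by exact_mod_cast h6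
    linarith
  calc (A.card : ℝ) * ((S.card : ℝ) - M - (k + 1))
      = ∑ t ∈ A, ((S.card : ℝ) - M - (k + 1)) := by
        rw [sum_const, nsmul_eq_mul]
    _ ≤ _ := sum_le_sum h1

/-- **the number of the monochromatic patterns, from below** -/
theorem mono_low (k N M r : ℕ) (hMN : M ≤ N) (A S : Finset ℕ) (col : ℕ → ℕ) (hA : ∀ t ∈ A, t ≤ M)
    (hS : S ⊆ Icc 1 N) (hcol : ∀ s ∈ S, col s < r) {y : ℝ} (hy : 0 ≤ y)
    (h : y * (r * N) ≤ (A.card : ℝ) * ((S.card : ℝ) - M - (k + 1))) :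
    r * ((N : ℝ) - M - (k + 1)) * Uni.GG k y ≤
      (k + 1).factorial * ∑ T ∈ A.powersetCard (k + 1), (mcnt S col (k + 1) (N - M) T : ℝ) := by
  classical
  set I := Ioc (k + 1) (N - M) with hI
  set J := (range r) ×ˢ I with hJ
  have h1 := count_low k N M hMN A S hA hS
  have hJc : (J.card : ℝ) = r * I.card := by
    rw [hJ, card_product, card_range]; push_cast; ring
  have hc : (I.card : ℝ) ≤ N := by
    rw [hI, Nat.card_Ioc]
    exact_mod_cast (by omega : N - M - (k + 1) ≤ N)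
  have hc2 : (N : ℝ) - M - (k + 1) ≤ (I.card : ℝ) := by
    rw [hI, Nat.card_Ioc]
    have : N ≤ (N - M - (k + 1)) + M + (k + 1) := by omega
    have h2 : (N : ℝ) ≤ ((N - M - (k + 1) : ℕ) : ℝ) + M + (k + 1) := by exact_mod_cast this
    linarith
  -- the sum over the colours
  have hsum : ∑ u ∈ J, ((A.filter (fun t => u.2 + t ∈ S ∧ col (u.2 + t) = u.1)).card : ℝ) =
      ∑ n ∈ I, ((A.filter (fun t => n + t ∈ S)).card : ℝ) := by
    rw [hJ, sum_product_right]
    apply sum_congr rfl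
    intro n _
    have e : (A.filter (fun t => n + t ∈ S)).card =
        ∑ i ∈ range r, ((A.filter (fun t => n + t ∈ S)).filter (fun t => col (n + t) = i)).card := by
      apply card_eq_sum_card_fiberwise
      intro t ht
      rw [mem_coe, mem_filter] at ht
      rw [mem_coe, mem_range]
      exact hcol _ ht.2
    rw [e]
    push_cast
    apply sum_congr rfl
    intro i _
    rw [filter_filter]
  have h2 := Uni.jensen_desc J (fun u => (A.filter (fun t => u.2 + t ∈ S ∧ col (u.2 + t) = u.1)).card) k hy (by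
    rw [hsum, hJc]
    refine le_trans ?_ h1
    refine le_trans ?_ h
    apply mul_le_mul_of_nonneg_left _ hy
    apply mul_le_mul_of_nonneg_left hc (Nat.cast_nonneg r))
  have h3 : ∑ u ∈ J, (((A.filter (fun t => u.2 + t ∈ S ∧ col (u.2 + t) = u.1)).card).descFactorial (k + 1) : ℝ)
      ≤ (k + 1).factorial * ∑ T ∈ A.powersetCard (k + 1), (mcnt S col (k + 1) (N - M) T : ℝ) := by
    have h4 := Uni.sum_choose J A (k + 1) (fun u t => u.2 + t ∈ S ∧ col (u.2 + t) = u.1)
    simp_rw [Nat.descFactorial_eq_factorial_mul_choose]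
    push_cast
    rw [← mul_sum]
    apply mul_le_mul_of_nonneg_left _ (by positivity)
    have h5 : ∑ u ∈ J, (((A.filter (fun t => u.2 + t ∈ S ∧ col (u.2 + t) = u.1)).card).choose (k + 1) : ℝ) =
        ((∑ T ∈ A.powersetCard (k + 1), (J.filter (fun u => ∀ t ∈ T, u.2 + t ∈ S ∧ col (u.2 + t) = u.1)).card : ℕ) : ℝ) := by
      rw [← h4]; push_cast; rfl
    rw [h5]
    push_cast
    apply sum_le_sum
    intro T hT
    rw [mem_powersetCard] at hT
    have hne : T.Nonempty := card_pos.1 (by omega)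
    obtain ⟨t0, ht0⟩ := hne
    norm_cast
    unfold mcnt
    apply card_le_card_of_injOn (fun u => u.2)
    · intro u hu
      rw [mem_coe, mem_filter, hJ, mem_product] at hu
      rw [mem_coe, mem_filter]
      refine ⟨hu.1.2, fun t ht => (hu.2 t ht).1, fun t ht t' ht' => ?_⟩
      rw [(hu.2 t ht).2, (hu.2 t' ht').2]
    · intro u hu v hv huv
      rw [mem_coe, mem_filter] at hu hv
      have e1 := (hu.2 t0 ht0).2
      have e2 := (hv.2 t0 ht0).2
      simp only at huv
      rw [huv] at e1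
      exact Prod.ext (e1.symm.trans e2) huv
  calc r * ((N : ℝ) - M - (k + 1)) * Uni.GG k y ≤ (J.card : ℝ) * Uni.GG k y := by
        apply mul_le_mul_of_nonneg_right _ (Uni.GG_nonneg k hy)
        rw [hJc]
        exact mul_le_mul_of_nonneg_left hc2 (Nat.cast_nonneg r)
    _ ≤ _ := h2
    _ ≤ _ := h3

/-- the number of the monochromatic patterns, from above -/
lemma mcnt_le_piT {k N M : ℕ} {S : Finset ℕ} {col : ℕ → ℕ} (hSp : ∀ s ∈ S, s.Prime) {T : Finset ℕ}
    (hT : T.card = k + 1) (hTM : ∀ t ∈ T, t ≤ M) (hMN : M ≤ N) :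
    mcnt S col (k + 1) (N - M) T ≤ Uni.piT T N := by
  refine le_trans ?_ (Uni.cnt_le_piT hT hTM hMN)
  unfold mcnt Uni.cnt
  apply card_le_card
  intro n hn
  rw [mem_filter] at hn ⊢
  exact ⟨hn.1, fun t ht => hSp _ (hn.2.1 t ht)⟩

/-- the cut off falling factorial has small increments -/
lemma GG_lip (k : ℕ) {y y0 : ℝ} (hy : 0 ≤ y) (hyy : y ≤ y0) :
    Uni.GG k y0 - (k + 1) * y0 ^ k * (y0 - y) ≤ Uni.GG k y := by
  have hy0 : 0 ≤ y0 := hy.trans hyy
  have hG : ∀ m : ℕ, ∀ z : ℝ, 0 ≤ z → z ≤ y0 → 0 ≤ ∏ i ∈ range m, max 0 (z - (i + 1 : ℝ)) ∧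
      ∏ i ∈ range m, max 0 (z - (i + 1 : ℝ)) ≤ y0 ^ m := by
    intro m z hz hz0
    constructor
    · exact prod_nonneg fun _ _ => le_max_left _ _
    · calc _ ≤ ∏ _i ∈ range m, y0 := by
            apply prod_le_prod (fun _ _ => le_max_left _ _)
            intro i _
            apply max_le hy0
            have : (0:ℝ) ≤ (i:ℝ) := Nat.cast_nonneg i
            linarith
        _ = _ := by rw [prod_const, card_range]
  have key : ∀ m : ℕ, ∏ i ∈ range m, max 0 (y0 - (i + 1 : ℝ)) - ∏ i ∈ range m, max 0 (y - (i + 1 : ℝ)) ≤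
      m * y0 ^ (m - 1) * (y0 - y) := by
    intro m
    induction m with
    | zero => simp
    | succ m ih =>
      rw [prod_range_succ, prod_range_succ]
      obtain ⟨a1, a2⟩ := hG m y0 hy0 le_rfl
      obtain ⟨b1, b2⟩ := hG m y hy hyy
      set P := ∏ i ∈ range m, max 0 (y0 - (i + 1 : ℝ))
      set Q := ∏ i ∈ range m, max 0 (y - (i + 1 : ℝ))
      set u := max 0 (y0 - (m + 1 : ℝ)) with hu
      set v := max 0 (y - (m + 1 : ℝ)) with hv
      have hu0 : 0 ≤ u := le_max_left _ _
      have hv0 : 0 ≤ v := le_max_left _ _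
      have huy : u ≤ y0 := by
        apply max_le hy0
        have : (0:ℝ) ≤ (m:ℝ) := Nat.cast_nonneg m
        linarith
      have huv : u - v ≤ y0 - y := by
        rw [hu, hv]
        rcases max_cases (0:ℝ) (y0 - (m + 1 : ℝ)) with h | h <;> rcases max_cases (0:ℝ) (y - (m + 1 : ℝ)) with h' | h' <;>
          rw [h.1, h'.1] <;> linarith [h.2, h'.2]
      have e : P * u - Q * v = (P - Q) * u + Q * (u - v) := by ring
      rw [e]
      have c1 : (P - Q) * u ≤ m * y0 ^ (m - 1) * (y0 - y) * y0 := by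
        have hnn : 0 ≤ (m : ℝ) * y0 ^ (m - 1) * (y0 - y) := by
          have : 0 ≤ y0 - y := by linarith
          positivity
        calc (P - Q) * u ≤ (m * y0 ^ (m - 1) * (y0 - y)) * u := mul_le_mul_of_nonneg_right ih hu0
          _ ≤ _ := mul_le_mul_of_nonneg_left huy hnn
      have c2 : Q * (u - v) ≤ y0 ^ m * (y0 - y) := by
        calc Q * (u - v) ≤ Q * (y0 - y) := mul_le_mul_of_nonneg_left huv b1
          _ ≤ _ := mul_le_mul_of_nonneg_right b2 (by linarith)
      have c3 : (m : ℝ) * y0 ^ (m - 1) * (y0 - y) * y0 = m * y0 ^ m * (y0 - y) := by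
        rcases m with _ | m
        · simp
        · rw [Nat.add_sub_cancel]; ring
      rw [c3] at c1
      rw [Nat.add_sub_cancel]
      push_cast
      linarith
  have k1 := key k
  obtain ⟨b1, b2⟩ := hG k y hy hyy
  have hGG : ∀ z : ℝ, Uni.GG k z = z * ∏ i ∈ range k, max 0 (z - (i + 1 : ℝ)) := fun z => rfl
  rw [hGG, hGG]
  obtain ⟨a1, a2⟩ := hG k y0 hy0 le_rfl
  set P := ∏ i ∈ range k, max 0 (y0 - (i + 1 : ℝ))
  set Q := ∏ i ∈ range k, max 0 (y - (i + 1 : ℝ))
  have e : y0 * P - y * Q = y0 * (P - Q) + (y0 - y) * Q := by ring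
  have c1 : y0 * (P - Q) ≤ y0 * (k * y0 ^ (k - 1) * (y0 - y)) := mul_le_mul_of_nonneg_left k1 hy0
  have c2 : (y0 - y) * Q ≤ (y0 - y) * y0 ^ k := mul_le_mul_of_nonneg_left b2 (by linarith)
  have c3 : y0 * (k * y0 ^ (k - 1) * (y0 - y)) = k * y0 ^ k * (y0 - y) := by
    rcases k with _ | k
    · simp
    · rw [Nat.add_sub_cancel]; ring
  rw [c3] at c1
  have c4 : ((k : ℝ) + 1) * y0 ^ k * (y0 - y) = k * y0 ^ k * (y0 - y) + (y0 - y) * y0 ^ k := by ring
  rw [c4]
  linarith

end Pool.Agent.Q248.DP
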