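import Mathlib
import Pool.Agent.Q248.DP.Core

set_option autoImplicit false

/-! Many patterns reach the expected count inside coloured arbitrary sets of primes, helper248. -/

namespace Pool.Agent.Q248.DP

open Finset Filter Topology Pool.Agent.H387R2

open Classical in
/-- the weight of the patterns with many occurrences, abstractly -/
theorem weight (F : Finset (Finset ℕ)) (m : Finset ℕ → ℝ) {B V P a b σ : ℝ} (hV : 0 < V) (hσ : 0 ≤ σ)
    (hmany : V * P * a ≤ ∑ T ∈ F, m T) (havg : ∑ T ∈ F, Uni.CT T ≤ P * b)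
    (hup : ∀ T ∈ F, m T ≤ B * (V * Uni.CT T)) :
    P * (a - σ * b) ≤ B * ∑ T ∈ F.filter (fun T => 0 < Uni.CT T ∧ σ * V * Uni.CT T ≤ m T), Uni.CT T := by
  set G := F.filter (fun T => 0 < Uni.CT T ∧ σ * V * Uni.CT T ≤ m T) with hG
  have hsplit : ∑ T ∈ F, m T ≤ ∑ T ∈ F, σ * V * Uni.CT T + ∑ T ∈ G, B * (V * Uni.CT T) := by
    rw [hG, sum_filter, ← sum_add_distrib]
    apply sum_le_sum
    intro T hTA
    have hCT := Uni.CT_nonneg T
    have hup' := hup T hTA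
    split_ifs with hg
    · have : 0 ≤ σ * V * Uni.CT T := by positivity
      linarith
    · rw [add_zero]
      rw [not_and_or] at hg
      rcases hg with hg | hg
      · have : Uni.CT T = 0 := le_antisymm (not_lt.1 hg) hCT
        rw [this] at hup' ⊢
        simpa using hup'
      · exact (not_le.1 hg).le
  have e1 : ∑ T ∈ F, σ * V * Uni.CT T = σ * V * ∑ T ∈ F, Uni.CT T := by rw [mul_sum]
  have e2 : ∑ T ∈ G, B * (V * Uni.CT T) = V * (B * ∑ T ∈ G, Uni.CT T) := by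
    rw [mul_sum, mul_sum]; exact sum_congr rfl fun T _ => by ring
  rw [e1, e2] at hsplit
  have h5 : σ * V * ∑ T ∈ F, Uni.CT T ≤ σ * V * (P * b) :=
    mul_le_mul_of_nonneg_left havg (by positivity)
  have h6 : V * (P * (a - σ * b)) ≤ V * (B * ∑ T ∈ G, Uni.CT T) := by
    calc V * (P * (a - σ * b)) = V * P * a - σ * V * (P * b) := by ring
      _ ≤ _ := by linarith
  exact le_of_mul_le_mul_left h6 hV

lemma GG_le (k : ℕ) {y : ℝ} (hy : 0 ≤ y) : Uni.GG k y ≤ y ^ (k + 1) := by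
  unfold Uni.GG
  rw [pow_succ, mul_comm (y ^ k) y]
  apply mul_le_mul_of_nonneg_left _ hy
  calc _ ≤ ∏ _i ∈ range k, y := by
        apply prod_le_prod (fun _ _ => le_max_left _ _)
        intro i _
        apply max_le hy
        have : (0:ℝ) ≤ (i:ℝ) := Nat.cast_nonneg i
        linarith
    _ = _ := by rw [prod_const, card_range]

lemma small_M (k : ℕ) (C : ℝ) : ∀ᶠ N : ℕ in atTop, ∀ M : ℕ, (M : ℝ) ≤ Real.log N ^ C →
    ((k : ℝ) + 2) * ((M : ℝ) + k + 1) ^ 2 * (M + 1) ≤ N := by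
  have tN : Tendsto (fun N : ℕ => (N : ℝ)) atTop atTop := tendsto_natCast_atTop_atTop
  have tL : Tendsto (fun N : ℕ => Real.log (N : ℝ)) atTop atTop := Real.tendsto_log_atTop.comp tN
  set Cp : ℝ := max C 0 with hCp
  have hC0 : 0 ≤ Cp := le_max_right _ _
  set η : ℝ := 1 / (((k : ℝ) + 2) * ((k : ℝ) + 2) ^ 2 * 2) with hη
  have hη0 : 0 < η := by positivity
  filter_upwards [tL.eventually_ge_atTop 1, tN.eventually (Uni.log_pow_small (3 * Cp) (η := η) hη0),
    eventually_ge_atTop 1] with N h1 h2 hN1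
  intro M hM
  set L := Real.log (N:ℝ) with hL
  have hLC : L ^ C ≤ L ^ Cp := Real.rpow_le_rpow_of_exponent_le h1 (le_max_left _ _)
  have hLC1 : 1 ≤ L ^ Cp := Real.one_le_rpow h1 hC0
  have hM' : (M : ℝ) ≤ L ^ Cp := hM.trans hLC
  have e3 : L ^ (3 * Cp) = (L ^ Cp) ^ 3 := by
    rw [mul_comm, Real.rpow_mul (by linarith)]
    norm_num
  rw [e3] at h2
  set X := L ^ Cp with hX
  have hk0 : (0:ℝ) ≤ k := Nat.cast_nonneg k
  have b1 : (M : ℝ) + k + 1 ≤ ((k : ℝ) + 2) * X := by nlinarith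
  have b2 : (M : ℝ) + 1 ≤ 2 * X := by linarith
  calc ((k : ℝ) + 2) * ((M : ℝ) + k + 1) ^ 2 * (M + 1)
      ≤ ((k : ℝ) + 2) * (((k : ℝ) + 2) * X) ^ 2 * (2 * X) := by
        gcongr
    _ = (((k : ℝ) + 2) * ((k : ℝ) + 2) ^ 2 * 2) * X ^ 3 := by ring
    _ ≤ (((k : ℝ) + 2) * ((k : ℝ) + 2) ^ 2 * 2) * (η * N) := by
        apply mul_le_mul_of_nonneg_left h2 (by positivity)
    _ = N := by rw [hη]; field_simp

/-- **the number of the monochromatic patterns** -/
theorem many_low (k N M r : ℕ) (hMN : ((k : ℝ) + 2) * ((M : ℝ) + k + 1) ^ 2 * (M + 1) ≤ N)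
    (A S : Finset ℕ) (col : ℕ → ℕ) (hA : ∀ t ∈ A, t ≤ M) (hAc : A.card ≤ M + 1)
    (hS : S ⊆ Icc 1 N) (hcol : ∀ s ∈ S, col s < r) {y0 : ℝ} (hy0 : y0 = A.card * S.card / (r * N)) (hy1 : 1 ≤ y0) :
    (r * N * y0 ^ (k + 1)) * (Uni.ph k (1 / y0) - 1 / (M + 1)) ≤
      (k + 1).factorial * ∑ T ∈ A.powersetCard (k + 1), (mcnt S col (k + 1) (N - M) T : ℝ) := by
  have hk0 : (0:ℝ) ≤ k := Nat.cast_nonneg k
  have hM0 : (0:ℝ) ≤ M := Nat.cast_nonneg M
  have hNpos : (0:ℝ) < N := lt_of_lt_of_le (by positivity) hMN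
  have hMNr : (M : ℝ) + k + 1 ≤ N := by
    refine le_trans ?_ hMN
    have h1 : (1:ℝ) ≤ (M : ℝ) + k + 1 := by linarith
    have h2 : (M : ℝ) + k + 1 ≤ ((M : ℝ) + k + 1) ^ 2 := by nlinarith
    have h3 : ((M : ℝ) + k + 1) ^ 2 ≤ ((k : ℝ) + 2) * ((M : ℝ) + k + 1) ^ 2 := by nlinarith
    have h4 : ((k : ℝ) + 2) * ((M : ℝ) + k + 1) ^ 2 ≤ ((k : ℝ) + 2) * ((M : ℝ) + k + 1) ^ 2 * (M + 1) := by
      have : 0 ≤ ((k : ℝ) + 2) * ((M : ℝ) + k + 1) ^ 2 := by positivity
      nlinarith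
    linarith
  have hMN' : M ≤ N := by
    have : (M : ℝ) ≤ N := by linarith
    exact_mod_cast this
  -- `r` is positive
  have hr1 : 1 ≤ r := by
    rcases Nat.eq_zero_or_pos r with h | h
    · rw [h] at hy0
      simp at hy0
      linarith
    · exact h
  have hr0 : (1:ℝ) ≤ r := by exact_mod_cast hr1
  have hrN : (0:ℝ) < r * N := by positivity
  -- the size of `S`
  have hAS : (N : ℝ) ≤ A.card * S.card := by
    rw [hy0, le_div_iff₀ hrN, one_mul] at hy1
    nlinarith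
  have hSM : (N : ℝ) ≤ (M + 1) * S.card := by
    refine hAS.trans ?_
    apply mul_le_mul_of_nonneg_right _ (Nat.cast_nonneg _)
    exact_mod_cast hAc
  have hS0 : (0:ℝ) < S.card := by
    have h0 : (0:ℝ) ≤ S.card := Nat.cast_nonneg _
    rcases h0.eq_or_lt with h | h
    · rw [← h, mul_zero] at hSM; linarith
    · exact h
  set e : ℝ := ((M : ℝ) + k + 1) / S.card with he
  have he0 : 0 ≤ e := by positivity
  have heN : ((k : ℝ) + 1) * e + ((M : ℝ) + k + 1) / N ≤ 1 / (M + 1) := by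
    have a1 : e ≤ ((M : ℝ) + k + 1) * (M + 1) / N := by
      rw [he, div_le_div_iff₀ hS0 hNpos]
      have : 0 ≤ (M : ℝ) + k + 1 := by positivity
      nlinarith
    have a2 : ((M : ℝ) + k + 1) / N ≤ ((M : ℝ) + k + 1) * (M + 1) / N := by
      apply div_le_div_of_nonneg_right _ hNpos.le
      have : 0 ≤ (M : ℝ) + k + 1 := by positivity
      nlinarith
    calc ((k : ℝ) + 1) * e + ((M : ℝ) + k + 1) / N
        ≤ ((k : ℝ) + 1) * (((M : ℝ) + k + 1) * (M + 1) / N) + ((M : ℝ) + k + 1) * (M + 1) / N := by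
          gcongr
      _ = (((k : ℝ) + 2) * ((M : ℝ) + k + 1) * (M + 1)) / N := by ring
      _ ≤ 1 / (M + 1) := by
          rw [div_le_div_iff₀ hNpos (by positivity), one_mul]
          refine le_trans ?_ hMN
          have b1 : (M : ℝ) + 1 ≤ (M : ℝ) + k + 1 := by linarith
          calc ((k : ℝ) + 2) * ((M : ℝ) + k + 1) * (M + 1) * (M + 1)
              ≤ ((k : ℝ) + 2) * ((M : ℝ) + k + 1) * ((M : ℝ) + k + 1) * (M + 1) := by gcongr
            _ = _ := by ring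
  have he1 : e ≤ 1 := by
    have b0 : 0 ≤ ((M : ℝ) + k + 1) / N := by positivity
    have b1 : (1:ℝ) / (M + 1) ≤ 1 := by
      rw [div_le_one (by positivity)]; linarith
    have b2 : e ≤ ((k : ℝ) + 1) * e := by nlinarith
    linarith
  set y : ℝ := y0 * (1 - e) with hy
  have hy0' : 0 < y0 := by linarith
  have hyn : 0 ≤ y := mul_nonneg hy0'.le (by linarith)
  have hyy : y ≤ y0 := by
    rw [hy]; nlinarith
  have hlow := mono_low k N M r hMN' A S col hA hS hcol hyn (by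
    have e1 : y * (r * N) = (A.card : ℝ) * (S.card * (1 - e)) := by
      rw [hy, hy0]; field_simp
    have e2 : (S.card : ℝ) * (1 - e) = (S.card : ℝ) - M - (k + 1) := by
      rw [he]; field_simp; ring
    rw [e1, e2])
  refine le_trans ?_ hlow
  have g1 := GG_lip k hyn hyy
  have g2 : Uni.GG k y0 = y0 ^ (k + 1) * Uni.ph k (1 / y0) := Uni.GG_eq k hy0'
  have g3 : Uni.GG k y ≤ y0 ^ (k + 1) :=
    (GG_le k hyn).trans (pow_le_pow_left₀ hyn hyy _)
  have g4 : y0 - y = y0 * e := by rw [hy]; ring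
  rw [g2, g4] at g1
  have g5 : ((k : ℝ) + 1) * y0 ^ k * (y0 * e) = y0 ^ (k + 1) * ((k + 1) * e) := by ring
  rw [g5] at g1
  have hY : 0 < y0 ^ (k + 1) := by positivity
  set Y := y0 ^ (k + 1) with hYd
  set p := Uni.ph k (1 / y0) with hp
  set G := Uni.GG k y with hG
  have g6 : r * ((N : ℝ) - M - (k + 1)) * G = (r * N) * G - (r * N) * (((M : ℝ) + k + 1) / N) * G := by
    field_simp
    ring
  rw [g6]
  have g7 : (r * N) * (((M : ℝ) + k + 1) / N) * G ≤ (r * N) * (((M : ℝ) + k + 1) / N) * Y :=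
    mul_le_mul_of_nonneg_left g3 (by positivity)
  have g8 : (r * N) * (Y * p - Y * (((k : ℝ) + 1) * e)) ≤ (r * N) * G :=
    mul_le_mul_of_nonneg_left g1 hrN.le
  have g9 : (r * N * Y) * (((k : ℝ) + 1) * e + ((M : ℝ) + k + 1) / N) ≤ (r * N * Y) * (1 / (M + 1)) :=
    mul_le_mul_of_nonneg_left heN (by positivity)
  calc (r * N * Y) * (p - 1 / (M + 1)) = (r * N * Y) * p - (r * N * Y) * (1 / (M + 1)) := by ring
    _ ≤ (r * N * Y) * p - (r * N * Y) * (((k : ℝ) + 1) * e + ((M : ℝ) + k + 1) / N) := by linarith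
    _ = (r * N) * (Y * p - Y * (((k : ℝ) + 1) * e)) - (r * N) * (((M : ℝ) + k + 1) / N) * Y := by ring
    _ ≤ _ := by linarith

open Classical in
/-- the patterns in `[0, H)` with at least `s` times the singular series monochromatic occurrences in `S` -/
noncomputable def gM (k N H : ℕ) (S : Finset ℕ) (col : ℕ → ℕ) (s : ℝ) : Finset (Finset ℕ) :=
  ((range H).powersetCard (k + 1)).filter (fun T => 0 < Uni.CT T ∧
    s * Uni.CT T ≤ mcnt S col (k + 1) (N - H) T)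

/-- **many patterns in arbitrary coloured sets of primes** -/
theorem main (k : ℕ) (hk : 1 ≤ k) (n : ℕ) (hn : 1 ≤ n) : ∃ κ K : ℝ, 0 < κ ∧ 1 ≤ K ∧ ∀ C : ℝ, ∀ᶠ N : ℕ in atTop,
    ∀ H : ℕ, (H : ℝ) ≤ Real.log N ^ C → ∀ S : Finset ℕ, (∀ s ∈ S, s.Prime ∧ s ≤ N) →
      ∀ (r : ℕ) (col : ℕ → ℕ), (∀ s ∈ S, col s < r) → ∀ θ ε : ℝ, 0 ≤ θ → K ≤ ε * (H : ℝ) ^ (3 / 4 : ℝ) →
        θ + ε ≤ Uni.ph k (r * N / (H * S.card)) →
        κ * (ε * (((S.card : ℝ) * Real.log N / N) ^ (k + 1) / r ^ k)) ^ (1 + 1 / (n : ℝ)) * (H : ℝ) ^ (k + 1) ≤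
          ((gM k N H S col (θ * ((S.card : ℝ) ^ (k + 1) / (r ^ k * N ^ k)))).card : ℝ) := by
  classical
  obtain ⟨B, hB, hup⟩ := Pool.Agent.W218.TX.pi_upper k
  obtain ⟨κ0, hκ0, hcard⟩ := Pool.Agent.TH891.SG.card_of_weight k n hn hB
  obtain ⟨Cg, hCg, hgal⟩ := Pool.Agent.TH891.SG.CT_avg k
  have h2k : (1:ℝ) ≤ 2 ^ k := one_le_pow₀ (by norm_num)
  refine ⟨κ0 * (1 / 2) ^ (1 + 1 / (n : ℝ)), 2 * (1 + 2 ^ k * Cg), by positivity, by nlinarith, fun C => ?_⟩
  have tN : Tendsto (fun N : ℕ => (N : ℝ)) atTop atTop := tendsto_natCast_atTop_atTop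
  have tL : Tendsto (fun N : ℕ => Real.log (N : ℝ)) atTop atTop := Real.tendsto_log_atTop.comp tN
  filter_upwards [small_M k C, hup C, tL.eventually_ge_atTop 1, eventually_ge_atTop 1] with N h1 h2 h3 hN1
  intro H hH S hS r col hcol θ ε hθ hε hθε
  have hn0 : (0:ℝ) < n := by exact_mod_cast hn
  rcases S.eq_empty_or_nonempty with hSe | hSne
  · rw [hSe, card_empty, Nat.cast_zero, zero_mul, zero_div, zero_pow (by omega), zero_div, mul_zero,
      Real.zero_rpow (by positivity), mul_zero, zero_mul]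
    exact Nat.cast_nonneg _
  set L := Real.log (N:ℝ) with hL
  have hL0 : 0 < L := by linarith
  have hN0 : (0:ℝ) < N := by exact_mod_cast hN1
  have hS0 : (0:ℝ) < S.card := by exact_mod_cast hSne.card_pos
  have hr1 : 1 ≤ r := by
    obtain ⟨s, hs⟩ := hSne
    have := hcol s hs
    omega
  have hr0 : (0:ℝ) < r := by exact_mod_cast hr1
  set p := Uni.ph k (r * N / (H * S.card)) with hp
  -- `H` is positive
  have hH0' : (0:ℝ) < (H:ℝ) := by
    rcases (Nat.cast_nonneg (α := ℝ) H).eq_or_lt with h | h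
    · rw [← h, Real.zero_rpow (by norm_num), mul_zero] at hε
      nlinarith
    · exact h
  have hH1 : 1 ≤ H := by
    have : 0 < H := by exact_mod_cast hH0'
    omega
  have hz0 : 0 < (H:ℝ) ^ (3 / 4 : ℝ) := by positivity
  set z : ℝ := 1 / (H:ℝ) ^ (3 / 4 : ℝ) with hz
  have hzpos : 0 < z := by positivity
  have hεz : 2 * (1 + 2 ^ k * Cg) * z ≤ ε := by
    rw [hz, mul_one_div, div_le_iff₀ hz0]
    exact hε
  have hε0 : 0 < ε := lt_of_lt_of_le (by positivity) hεz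
  have hp0 : 0 < p := by linarith
  have hu0 : 0 ≤ (r * N / (H * S.card) : ℝ) := by positivity
  have hp1 : p ≤ 1 := Pool.Agent.TH891.SG.ph_le_one k hu0
  have hε1 : ε ≤ 1 := by linarith
  have hθ1 : θ ≤ 1 := by linarith
  -- `y0`
  set y0 : ℝ := H * S.card / (r * N) with hy0
  have hinv : (r * N / (H * S.card) : ℝ) = 1 / y0 := by rw [hy0, one_div, inv_div]
  have hy0pos : 0 < y0 := by positivity
  have hu1 : (r * N / (H * S.card) : ℝ) < 1 := by
    by_contra hcon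
    rw [not_lt] at hcon
    have : p ≤ 0 := by
      rw [hp]
      unfold Uni.ph
      apply le_of_eq
      apply prod_eq_zero (mem_range.2 hk)
      rw [max_eq_left]
      push_cast
      linarith
    linarith
  have hy1 : 1 ≤ y0 := by
    rw [hinv, div_lt_one hy0pos] at hu1
    exact hu1.le
  have hlow := many_low k N H r (h1 H hH) (range H) S col (fun t ht => (mem_range.1 ht).le)
    (by rw [card_range]; omega) (fun s hs => mem_Icc.2 ⟨(hS s hs).1.one_lt.le, (hS s hs).2⟩) hcol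
    (y0 := y0) (by rw [card_range]) hy1
  rw [← hinv, ← hp] at hlow
  have hfac : (0:ℝ) < ((k + 1).factorial : ℝ) := by exact_mod_cast (k + 1).factorial_pos
  set V : ℝ := N / L ^ (k + 1) with hV
  have hV0 : 0 < V := by positivity
  set Q : ℝ := ((S.card : ℝ) * L / N) ^ (k + 1) / r ^ k with hQ
  have hQ0 : 0 < Q := by positivity
  set W : ℝ := (S.card : ℝ) ^ (k + 1) / (r ^ k * N ^ k) with hW
  have hVQ : V * Q = W := by
    rw [hV, hQ, hW, div_pow, mul_pow, pow_succ (N : ℝ) k]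
    field_simp
  have hW0 : 0 < W := by positivity
  have hrNy : r * N * y0 ^ (k + 1) = (H:ℝ) ^ (k + 1) * W := by
    rw [hy0, hW, div_pow, mul_pow, mul_pow, pow_succ (r : ℝ) k, pow_succ (N : ℝ) k]
    field_simp
  rw [hrNy] at hlow
  set P : ℝ := (H:ℝ) ^ (k + 1) / (k + 1).factorial with hP
  have hP0 : 0 < P := by positivity
  set m : Finset ℕ → ℝ := fun T => (mcnt S col (k + 1) (N - H) T : ℝ) with hm
  have hmany : V * P * (Q * (p - 1 / (H + 1))) ≤ ∑ T ∈ (range H).powersetCard (k + 1), m T := by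
    have e1 : V * P * (Q * (p - 1 / (H + 1))) = (V * Q) * P * (p - 1 / (H + 1)) := by ring
    rw [e1, hVQ, hP]
    have e2 : W * ((H:ℝ) ^ (k + 1) / (k + 1).factorial) * (p - 1 / (H + 1)) =
        ((H:ℝ) ^ (k + 1) * W * (p - 1 / (H + 1))) / (k + 1).factorial := by ring
    rw [e2, div_le_iff₀ hfac]
    linarith
  have hHz : (H:ℝ) ^ (1 / 4 : ℝ) = z * H := by
    rw [hz, div_mul_eq_mul_div, one_mul, eq_div_iff hz0.ne', ← Real.rpow_add hH0']
    norm_num
  have hCz : Cg * z ≤ 1 := by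
    have : Cg * z ≤ 2 * (1 + 2 ^ k * Cg) * z := by
      apply mul_le_mul_of_nonneg_right _ hzpos.le
      nlinarith
    linarith
  have havg : ∑ T ∈ (range H).powersetCard (k + 1), Uni.CT T ≤ P * (1 + 2 ^ k * (Cg * z)) := by
    refine (hgal H hH1).trans ?_
    rw [hHz]
    have e1 : (H:ℝ) + Cg * (z * H) = H * (1 + Cg * z) := by ring
    rw [e1, mul_pow, hP]
    have e2 : (1 + Cg * z) ^ k ≤ 1 + 2 ^ k * (Cg * z) := by
      have := Pool.Agent.TH891.SG.one_add_pow_le k (z := Cg * z) (by positivity) hCz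
      have h3 : 0 ≤ Cg * z := by positivity
      nlinarith
    calc (H:ℝ) * (H ^ k * (1 + Cg * z) ^ k) / (k + 1).factorial
        = (H:ℝ) ^ (k + 1) / (k + 1).factorial * (1 + Cg * z) ^ k := by ring
      _ ≤ _ := mul_le_mul_of_nonneg_left e2 hP0.le
  have hHN : H ≤ N := by
    have := h1 H hH
    have hk0 : (0:ℝ) ≤ k := Nat.cast_nonneg k
    have hHr : (H:ℝ) ≤ N := by
      refine le_trans ?_ this
      have c1 : (1:ℝ) ≤ (H:ℝ) + k + 1 := by linarith
      have c2 : (H:ℝ) ≤ ((H:ℝ) + k + 1) ^ 2 := by nlinarith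
      have c3 : ((H:ℝ) + k + 1) ^ 2 ≤ ((k:ℝ) + 2) * ((H:ℝ) + k + 1) ^ 2 := by nlinarith
      have c4 : ((k:ℝ) + 2) * ((H:ℝ) + k + 1) ^ 2 ≤ ((k:ℝ) + 2) * ((H:ℝ) + k + 1) ^ 2 * (H + 1) := by
        have : 0 ≤ ((k:ℝ) + 2) * ((H:ℝ) + k + 1) ^ 2 := by positivity
        nlinarith
      linarith
    exact_mod_cast hHr
  have hupT : ∀ T ∈ (range H).powersetCard (k + 1), m T ≤ B * (V * Uni.CT T) := by
    intro T hT
    rw [mem_powersetCard] at hT
    have hTH : ∀ t ∈ T, t ≤ H := fun t ht => (mem_range.1 (hT.1 ht)).le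
    refine le_trans ?_ (h2 T hT.2 (fun t ht => ?_))
    · have hx := mcnt_le_piT (col := col) (fun s hs => (hS s hs).1) hT.2 hTH hHN
      show (mcnt S col (k + 1) (N - H) T : ℝ) ≤ _
      exact_mod_cast hx
    · have h6 : (t:ℝ) ≤ H := by exact_mod_cast hTH t ht
      exact h6.trans hH
  have hw := weight ((range H).powersetCard (k + 1)) m (σ := θ * Q) hV0 (by positivity) hmany havg hupT
  have hGeq : ((range H).powersetCard (k + 1)).filter (fun T => 0 < Uni.CT T ∧ θ * Q * V * Uni.CT T ≤ m T) =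
      gM k N H S col (θ * W) := by
    unfold gM
    apply filter_congr
    intro T _
    rw [hm, ← hVQ]
    have : θ * Q * V = θ * (V * Q) := by ring
    rw [this]
  rw [hGeq] at hw
  -- the gain
  have hgain : Q * ε / 2 ≤ Q * (p - 1 / (H + 1)) - θ * Q * (1 + 2 ^ k * (Cg * z)) := by
    have c1 : (1:ℝ) / (H + 1) ≤ z := by
      rw [hz]
      apply one_div_le_one_div_of_le hz0
      have hH1' : (1:ℝ) ≤ H := by exact_mod_cast hH1
      calc (H:ℝ) ^ (3 / 4 : ℝ) ≤ (H:ℝ) ^ (1 : ℝ) := Real.rpow_le_rpow_of_exponent_le hH1' (by norm_num)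
        _ = H := Real.rpow_one _
        _ ≤ _ := by linarith
    have c2 : θ * (2 ^ k * (Cg * z)) ≤ 1 * (2 ^ k * (Cg * z)) :=
      mul_le_mul_of_nonneg_right hθ1 (by positivity)
    have c3 : ε / 2 ≤ p - 1 / (H + 1) - θ * (1 + 2 ^ k * (Cg * z)) := by linarith
    calc Q * ε / 2 = Q * (ε / 2) := by ring
      _ ≤ Q * (p - 1 / (H + 1) - θ * (1 + 2 ^ k * (Cg * z))) := mul_le_mul_of_nonneg_left c3 hQ0.le
      _ = _ := by ring
  have hw2 : P * (Q * ε / 2) ≤ B * ∑ T ∈ gM k N H S col (θ * W), Uni.CT T :=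
    (mul_le_mul_of_nonneg_left hgain hP0.le).trans hw
  have hfin := hcard H (gM k N H S col (θ * W)) (by unfold gM; exact filter_subset _ _) (Q * ε / 2)
    (by positivity) hw2
  refine le_trans (le_of_eq ?_) hfin
  have e1 : Q * ε / 2 = (1 / 2) * (ε * Q) := by ring
  have e2 : (Q * ε / 2) ^ (1 + 1 / (n : ℝ)) = (1 / 2) ^ (1 + 1 / (n : ℝ)) * (ε * Q) ^ (1 + 1 / (n : ℝ)) := by
    rw [e1]
    exact Real.mul_rpow (by norm_num) (mul_nonneg hε0.le hQ0.le)
  rw [e2]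
  ring

end Pool.Agent.Q248.DP
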