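import Mathlib
import Pool.Agent.Q248.DP.Main

set_option autoImplicit false

/-! Monochromatic pairs `p - d, p` in arbitrary coloured sets of primes, helper248. -/

namespace Pool.Agent.Q248.DP

open Finset Filter Topology Pool.Agent.H387R2

/-- the number of `p ∈ P` with `p - d` in `P` and of the same colour -/
def cnt2 (P : Finset ℕ) (col : ℕ → ℕ) (d : ℕ) : ℕ := (P.filter (fun p => p - d ∈ P ∧ col p = col (p - d))).card

lemma mcnt_le_cnt2 {P : Finset ℕ} {col : ℕ → ℕ} {u v a b : ℕ} (hab : a < b) :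
    mcnt P col u v {a, b} ≤ cnt2 P col (b - a) := by
  classical
  unfold mcnt cnt2
  apply card_le_card_of_injOn (fun n => n + b)
  · intro n hn
    rw [mem_coe, mem_filter] at hn
    have h1 := hn.2.1 a (by simp)
    have h2 := hn.2.1 b (by simp)
    have h3 := hn.2.2 b (by simp) a (by simp)
    rw [mem_coe, mem_filter]
    have e1 : n + b - (b - a) = n + a := by omega
    rw [e1]
    exact ⟨h2, h1, h3⟩
  · intro n _ n' _ h
    simp only at h
    omega

open Classical in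
/-- the even `d ≤ H` with `s · 𝔖(d)` monochromatic occurrences of `p - d, p` in `P` -/
noncomputable def diffs (P : Finset ℕ) (col : ℕ → ℕ) (H : ℕ) (s : ℝ) : Finset ℕ :=
  (Icc 2 H).filter (fun d => Even d ∧ s * Pool.Agent.TH891.SG.SP d ≤ cnt2 P col d)

lemma sorted2 {T : Finset ℕ} (hT : T.card = 2) : ∃ a b : ℕ, a < b ∧ T = {a, b} := by
  obtain ⟨x, y, hxy, rfl⟩ := card_eq_two.1 hT
  rcases lt_or_gt_of_ne hxy with h1 | h1
  · exact ⟨x, y, h1, rfl⟩
  · exact ⟨y, x, h1, pair_comm x y⟩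

lemma gM_le_diffs (N H : ℕ) (P : Finset ℕ) (col : ℕ → ℕ) (s : ℝ) :
    (gM 1 N H P col s).card ≤ H * (diffs P col H s).card := by
  classical
  have hex : ∀ T ∈ gM 1 N H P col s, ∃ u : ℕ × ℕ, u.1 < u.2 ∧ T = {u.1, u.2} := by
    intro T hT
    unfold gM at hT
    rw [mem_filter, mem_powersetCard] at hT
    obtain ⟨a, b, hab, e⟩ := sorted2 hT.1.2
    exact ⟨(a, b), hab, e⟩
  choose! f hf1 hf2 using hex
  have : (gM 1 N H P col s).card ≤ (range H ×ˢ diffs P col H s).card := by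
    apply card_le_card_of_injOn (fun T => ((f T).1, (f T).2 - (f T).1))
    · intro T hT
      have hT' := mem_coe.1 hT
      have g1 := hf1 T hT'
      have g2 := hf2 T hT'
      unfold gM at hT'
      rw [mem_filter, mem_powersetCard] at hT'
      obtain ⟨⟨hsub, _⟩, hpos, hge⟩ := hT'
      set a := (f T).1
      set b := (f T).2
      have ha : a < H := mem_range.1 (hsub (by rw [g2]; simp))
      have hb : b < H := mem_range.1 (hsub (by rw [g2]; simp))
      have e0 : ({0, b - a} : Finset ℕ).image (· + a) = {a, b} := by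
        rw [image_insert, image_singleton]
        have : b - a + a = b := by omega
        rw [this, zero_add]
      have hCT : Uni.CT {0, b - a} = Uni.CT T := by
        rw [g2, ← Pool.Agent.TH891.SG.CT_add {0, b - a} a, e0]
      have hpos' : 0 < Uni.CT {0, b - a} := by rw [hCT]; exact hpos
      have hev : Even (b - a) := Pool.Agent.TH891.SG.even_of_CT hpos'
      have hev' := hev
      rw [Nat.even_iff] at hev'
      have h2 : 2 ≤ b - a := by omega
      rw [mem_coe, mem_product, mem_range]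
      refine ⟨ha, ?_⟩
      unfold diffs
      rw [mem_filter, mem_Icc]
      refine ⟨⟨h2, by simp only; omega⟩, hev, ?_⟩
      simp only
      rw [← Pool.Agent.TH891.SG.CT_pair h2 hev, hCT]
      refine hge.trans ?_
      have := mcnt_le_cnt2 (P := P) (col := col) (u := 1 + 1) (v := N - H) g1
      rw [← g2] at this
      exact_mod_cast this
    · intro T hT T' hT' h
      have hT1 := mem_coe.1 hT
      have hT2 := mem_coe.1 hT'
      simp only [Prod.mk.injEq] at h
      obtain ⟨h1, h2⟩ := h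
      have a1 := hf1 T hT1
      have b1 := hf1 T' hT2
      have c2 : (f T).2 = (f T').2 := by omega
      rw [hf2 T hT1, hf2 T' hT2, h1, c2]
  rwa [card_product, card_range] at this

lemma ph1 {u : ℝ} (hu1 : u ≤ 1) : Uni.ph 1 u = 1 - u := by
  unfold Uni.ph
  rw [prod_range_one]
  push_cast
  rw [max_eq_right (by linarith)]
  ring

/-- from a real variable to an integer variable -/
lemma real_to_nat (C : ℝ) {Q : ℕ → Prop} (h : ∀ᶠ N : ℕ in atTop, Q N) : ∀ᶠ x : ℝ in atTop,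
    Q ⌊x⌋₊ ∧ 3 ≤ ((⌊x⌋₊ : ℕ) : ℝ) ∧ 3 ≤ x ∧ ((⌊x⌋₊ : ℕ) : ℝ) ≤ x ∧
      Real.log x ^ C ≤ Real.log ((⌊x⌋₊ : ℕ) : ℝ) ^ (max C 0 + 1) ∧
      Real.log x / x ≤ Real.log ((⌊x⌋₊ : ℕ) : ℝ) / ((⌊x⌋₊ : ℕ) : ℝ) := by
  have tF : Tendsto (fun x : ℝ => ⌊x⌋₊) atTop atTop := tendsto_nat_floor_atTop
  have tN : Tendsto (fun x : ℝ => ((⌊x⌋₊ : ℕ) : ℝ)) atTop atTop := tendsto_natCast_atTop_atTop.comp tF
  have tL : Tendsto (fun x : ℝ => Real.log ((⌊x⌋₊ : ℕ) : ℝ)) atTop atTop := Real.tendsto_log_atTop.comp tN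
  set Cp : ℝ := max C 0 with hCp
  have hCp0 : 0 ≤ Cp := le_max_right _ _
  filter_upwards [tF.eventually h, tN.eventually_ge_atTop 3,
    tL.eventually_ge_atTop (max 1 (2 ^ Cp)), eventually_ge_atTop (3:ℝ)] with x g1 g2 g3 g4
  set N : ℕ := ⌊x⌋₊ with hN
  have hL1 : 1 ≤ Real.log (N:ℝ) := (le_max_left _ _).trans g3
  have hL2 : 2 ^ Cp ≤ Real.log (N:ℝ) := (le_max_right _ _).trans g3
  have hN0 : (0:ℝ) < N := by linarith
  have hNx : (N:ℝ) ≤ x := Nat.floor_le (by linarith)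
  have hxN : x ≤ N + 1 := (Nat.lt_floor_add_one x).le
  have hlog1 : Real.log (N:ℝ) ≤ Real.log x := Real.log_le_log (by linarith) hNx
  have hlog2 : Real.log x ≤ 2 * Real.log (N:ℝ) := by
    have : Real.log x ≤ Real.log ((N:ℝ) ^ 2) := Real.log_le_log (by linarith) (by nlinarith)
    rw [Real.log_pow] at this
    exact_mod_cast this
  refine ⟨g1, g2, g4, hNx, ?_, ?_⟩
  · calc Real.log x ^ C ≤ Real.log x ^ Cp :=
          Real.rpow_le_rpow_of_exponent_le (by linarith) (le_max_left _ _)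
      _ ≤ (2 * Real.log (N:ℝ)) ^ Cp := Real.rpow_le_rpow (by linarith) hlog2 hCp0
      _ = 2 ^ Cp * Real.log (N:ℝ) ^ Cp := Real.mul_rpow (by norm_num) (by linarith)
      _ ≤ Real.log (N:ℝ) * Real.log (N:ℝ) ^ Cp := by
          apply mul_le_mul_of_nonneg_right hL2
          positivity
      _ = Real.log (N:ℝ) ^ (Cp + 1) := by
          rw [Real.rpow_add (by linarith), Real.rpow_one, mul_comm]
  · exact Real.log_div_self_antitoneOn (a := (N:ℝ)) (b := x) (by
      rw [Set.mem_Ici]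
      have := Real.exp_one_lt_d9
      linarith) (by
      rw [Set.mem_Ici]
      have := Real.exp_one_lt_d9
      linarith) hNx

/-- **monochromatic pairs in arbitrary coloured sets of primes** -/
theorem pairs (n : ℕ) (hn : 1 ≤ n) : ∃ κ K : ℝ, 0 < κ ∧ 1 ≤ K ∧ ∀ C : ℝ, ∀ᶠ x : ℝ in atTop,
    ∀ H : ℕ, (H : ℝ) ≤ Real.log x ^ C → ∀ P : Finset ℕ, (∀ p ∈ P, p.Prime ∧ (p : ℝ) ≤ x) →
      ∀ (r : ℕ) (col : ℕ → ℕ), (∀ p ∈ P, col p < r) → P.Nonempty →
      ∀ θ ε : ℝ, 0 ≤ θ → K ≤ ε * (H : ℝ) ^ (3 / 4 : ℝ) →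
        θ + ε ≤ 1 - r * x / (P.card * H) →
        κ * (ε * (((P.card : ℝ) * Real.log x / x) ^ 2 / r)) ^ (1 + 1 / (n : ℝ)) * (H : ℝ) ≤
          ((diffs P col H (θ * ((P.card : ℝ) ^ 2 / (r * x)))).card : ℝ) := by
  classical
  obtain ⟨κ, K, hκ, hK, hmain⟩ := main 1 (by norm_num) n hn
  refine ⟨κ, K, hκ, hK, fun C => ?_⟩
  filter_upwards [real_to_nat C (hmain (max C 0 + 1))] with x hx
  intro H hH P hP r col hcol hPne θ ε hθ hε hθε
  set N : ℕ := ⌊x⌋₊ with hN
  obtain ⟨g1, g2, g4, hNx, hC, hlogd⟩ := hx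
  have hx0 : 0 < x := by linarith
  have hN0 : (0:ℝ) < N := by linarith
  have hP0 : (0:ℝ) < P.card := by exact_mod_cast hPne.card_pos
  have hr1 : 1 ≤ r := by
    obtain ⟨s, hs⟩ := hPne
    have := hcol s hs
    omega
  have hr0 : (0:ℝ) < r := by exact_mod_cast hr1
  have hH0 : (0:ℝ) < H := by
    rcases (Nat.cast_nonneg (α := ℝ) H).eq_or_lt with h | h
    · rw [← h, Real.zero_rpow (by norm_num), mul_zero] at hε
      linarith
    · exact h
  have hε0 : 0 ≤ ε := by
    by_contra hcon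
    have : ε * (H:ℝ) ^ (3 / 4 : ℝ) < 0 := mul_neg_of_neg_of_pos (not_le.1 hcon) (by positivity)
    linarith
  have hPH0 : 0 < (P.card : ℝ) * H := by positivity
  have hu1 : r * x / (P.card * H) ≤ 1 := by linarith
  have hlx : 0 ≤ Real.log x := Real.log_nonneg (by linarith)
  have hph : θ + ε ≤ Uni.ph 1 ((r : ℝ) * N / (H * P.card)) := by
    refine hθε.trans ?_
    rw [← ph1 hu1]
    apply Uni.ph_anti
    rw [mul_comm (H : ℝ)]
    apply div_le_div_of_nonneg_right _ hPH0.le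
    exact mul_le_mul_of_nonneg_left hNx hr0.le
  have h := g1 H (hH.trans hC) P (fun p hp => ⟨(hP p hp).1, Nat.le_floor (hP p hp).2⟩) r col hcol θ ε hθ hε hph
  simp only [pow_one] at h
  have hsub : (gM 1 N H P col (θ * ((P.card : ℝ) ^ (1 + 1) / (r * (N:ℝ))))).card ≤
      (gM 1 N H P col (θ * ((P.card : ℝ) ^ 2 / (r * x)))).card := by
    apply card_le_card
    intro T hT
    unfold gM at hT ⊢
    rw [mem_filter] at hT ⊢
    refine ⟨hT.1, hT.2.1, le_trans ?_ hT.2.2⟩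
    apply mul_le_mul_of_nonneg_right _ hT.2.1.le
    apply mul_le_mul_of_nonneg_left _ hθ
    apply div_le_div_of_nonneg_left (by positivity) (by positivity)
    exact mul_le_mul_of_nonneg_left hNx hr0.le
  have h2 := gM_le_diffs N H P col (θ * ((P.card : ℝ) ^ 2 / (r * x)))
  have h3 : ((gM 1 N H P col (θ * ((P.card : ℝ) ^ (1 + 1) / (r * (N:ℝ))))).card : ℝ) ≤
      H * ((diffs P col H (θ * ((P.card : ℝ) ^ 2 / (r * x)))).card : ℝ) := by
    exact_mod_cast hsub.trans h2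
  have h4 := h.trans h3
  have h5 : (ε * (((P.card : ℝ) * Real.log x / x) ^ 2 / r)) ^ (1 + 1 / (n : ℝ)) ≤
      (ε * (((P.card : ℝ) * Real.log N / N) ^ (1 + 1) / r)) ^ (1 + 1 / (n : ℝ)) := by
    apply Real.rpow_le_rpow (by positivity)
    · apply mul_le_mul_of_nonneg_left _ hε0
      apply div_le_div_of_nonneg_right _ hr0.le
      apply pow_le_pow_left₀ (by positivity)
      rw [mul_div_assoc, mul_div_assoc]
      exact mul_le_mul_of_nonneg_left hlogd hP0.le
    · positivity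
  have h6 : H * (κ * (ε * (((P.card : ℝ) * Real.log x / x) ^ 2 / r)) ^ (1 + 1 / (n : ℝ)) * (H : ℝ)) ≤
      H * ((diffs P col H (θ * ((P.card : ℝ) ^ 2 / (r * x)))).card : ℝ) := by
    refine le_trans ?_ h4
    calc H * (κ * (ε * (((P.card : ℝ) * Real.log x / x) ^ 2 / r)) ^ (1 + 1 / (n : ℝ)) * (H : ℝ))
        = κ * (ε * (((P.card : ℝ) * Real.log x / x) ^ 2 / r)) ^ (1 + 1 / (n : ℝ)) * (H : ℝ) ^ (1 + 1) := by ring
      _ ≤ _ := by
          apply mul_le_mul_of_nonneg_right _ (by positivity)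
          exact mul_le_mul_of_nonneg_left h5 hκ.le
  exact le_of_mul_le_mul_left h6 hH0

end Pool.Agent.Q248.DP
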