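import Mathlib
import Pool.Agent.Q248.DP.Main

set_option autoImplicit false

/-! Triples `p - d, p - d', p` in arbitrary sets of primes, helper248. -/

namespace Pool.Agent.Q248.DP

open Finset Filter Topology Pool.Agent.H387R2

/-- every `3`-element set is an increasing triple -/
lemma sorted3 {T : Finset ℕ} (hT : T.card = 3) : ∃ a b c : ℕ, a < b ∧ b < c ∧ T = {a, b, c} := by
  obtain ⟨x, y, z, hxy, hxz, hyz, rfl⟩ := card_eq_three.1 hT
  rcases lt_or_gt_of_ne hxy with h1 | h1 <;> rcases lt_or_gt_of_ne hxz with h2 | h2 <;>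
    rcases lt_or_gt_of_ne hyz with h3 | h3
  · exact ⟨x, y, z, h1, h3, rfl⟩
  · refine ⟨x, z, y, h2, h3, ?_⟩
    ext t; simp only [mem_insert, mem_singleton]; tauto
  · omega
  · refine ⟨z, x, y, h2, h1, ?_⟩
    ext t; simp only [mem_insert, mem_singleton]; tauto
  · refine ⟨y, x, z, h1, h2, ?_⟩
    ext t; simp only [mem_insert, mem_singleton]; tauto
  · omega
  · refine ⟨y, z, x, h3, h2, ?_⟩
    ext t; simp only [mem_insert, mem_singleton]; tauto
  · refine ⟨z, y, x, h3, h1, ?_⟩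
    ext t; simp only [mem_insert, mem_singleton]; tauto

lemma card_image_congr {T : Finset ℕ} {f g : ℕ → ℕ} (h : ∀ s ∈ T, ∀ t ∈ T, f s = f t → g s = g t) :
    (T.image g).card ≤ (T.image f).card := by
  classical
  have hex : ∀ u ∈ T.image f, ∃ t ∈ T, f t = u := fun u hu => mem_image.1 hu
  choose! pre hpre1 hpre2 using hex
  have hsub : T.image g ⊆ (T.image f).image (fun u => g (pre u)) := by
    intro v hv
    obtain ⟨t, ht, rfl⟩ := mem_image.1 hv
    rw [mem_image]
    refine ⟨f t, mem_image_of_mem f ht, ?_⟩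
    have h1 := hpre1 (f t) (mem_image_of_mem f ht)
    have h2 := hpre2 (f t) (mem_image_of_mem f ht)
    exact h _ h1 _ ht h2
  exact (card_le_card hsub).trans card_image_le

lemma nu_refl {a b c : ℕ} (hab : a < b) (hbc : b < c) (p : ℕ) :
    Uni.nuT {a, b, c} p = (({0, c - b, c - a} : Finset ℕ).image (fun n => n % p)).card := by
  have e : ({0, c - b, c - a} : Finset ℕ) = ({a, b, c} : Finset ℕ).image (fun t => c - t) := by
    rw [image_insert, image_insert, image_singleton, Nat.sub_self]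
    ext t; simp only [mem_insert, mem_singleton]; tauto
  rw [e, image_image]
  unfold Uni.nuT
  have hle : ∀ t ∈ ({a, b, c} : Finset ℕ), t ≤ c := by
    intro t ht
    simp only [mem_insert, mem_singleton] at ht
    omega
  apply le_antisymm
  · apply card_image_congr
    intro s hs t ht h
    simp only [Function.comp] at h
    have h1 : s + (c - s) = t + (c - t) := by
      have := hle s hs; have := hle t ht; omega
    exact Nat.ModEq.add_right_cancel (show (c - s) ≡ (c - t) [MOD p] from h) (by rw [h1])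
  · apply card_image_congr
    intro s hs t ht h
    simp only [Function.comp]
    have h1 : s + (c - s) = t + (c - t) := by
      have := hle s hs; have := hle t ht; omega
    exact Nat.ModEq.add_left_cancel (show s ≡ t [MOD p] from h) (by rw [h1])

lemma card_trip {a b c : ℕ} (hab : a < b) (hbc : b < c) : ({a, b, c} : Finset ℕ).card = 3 :=
  card_eq_three.2 ⟨a, b, c, hab.ne, (hab.trans hbc).ne, hbc.ne, rfl⟩

/-- the singular series of `{0, d', d}` -/
noncomputable def S3 (d' d : ℕ) : ℝ := ∏' p : Nat.Primes,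
  ((1 - ((((({0, d', d} : Finset ℕ).image (fun n => n % (p : ℕ))).card : ℕ) : ℝ) / ((p : ℕ) : ℝ)))
    / (1 - 1 / ((p : ℕ) : ℝ)) ^ 3)

lemma S3_eq {a b c : ℕ} (hab : a < b) (hbc : b < c) : S3 (c - b) (c - a) = Uni.CT {a, b, c} := by
  unfold S3 Uni.CT Uni.locT
  simp_rw [nu_refl hab hbc, card_trip hab hbc]

lemma even_trip {a b c : ℕ} (h : Uni.Adm {a, b, c}) :
    Even (c - b) ∧ Even (c - a) := by
  have h2 := h 2 Nat.prime_two
  unfold Uni.nuT at h2
  have key : ∀ s ∈ ({a, b, c} : Finset ℕ), ∀ t ∈ ({a, b, c} : Finset ℕ), s % 2 = t % 2 := by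
    have h3 : (({a, b, c} : Finset ℕ).image (· % 2)).card ≤ 1 := by omega
    rw [card_le_one] at h3
    intro s hs t ht
    exact h3 _ (mem_image_of_mem _ hs) _ (mem_image_of_mem _ ht)
  have k1 := key b (by simp) c (by simp)
  have k2 := key a (by simp) c (by simp)
  rw [Nat.even_iff, Nat.even_iff]
  omega

/-- the number of `p ∈ P` with `p - d` and `p - d'` in `P` -/
def cnt3 (P : Finset ℕ) (d' d : ℕ) : ℕ := (P.filter (fun p => p - d ∈ P ∧ p - d' ∈ P)).card

lemma mcnt_le_cnt3 {P : Finset ℕ} {col : ℕ → ℕ} {u v a b c : ℕ} (hab : a < b) (hbc : b < c) :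
    mcnt P col u v {a, b, c} ≤ cnt3 P (c - b) (c - a) := by
  classical
  unfold mcnt cnt3
  apply card_le_card_of_injOn (fun n => n + c)
  · intro n hn
    rw [mem_coe, mem_filter] at hn
    have h1 := hn.2.1 a (by simp)
    have h2 := hn.2.1 b (by simp)
    have h3 := hn.2.1 c (by simp)
    rw [mem_coe, mem_filter]
    have e1 : n + c - (c - a) = n + a := by omega
    have e2 : n + c - (c - b) = n + b := by omega
    rw [e1, e2]
    exact ⟨h3, h1, h2⟩
  · intro n _ n' _ h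
    simp only at h
    omega

open Classical in
/-- the pairs `d' < d ≤ H` of even integers with `s · 𝔖` occurrences of `p - d, p - d', p` in `P` -/
noncomputable def pairs3 (P : Finset ℕ) (H : ℕ) (s : ℝ) : Finset (ℕ × ℕ) :=
  (Icc 2 H ×ˢ Icc 2 H).filter (fun u => Even u.1 ∧ Even u.2 ∧ u.1 < u.2 ∧ 0 < S3 u.1 u.2 ∧
    s * S3 u.1 u.2 ≤ cnt3 P u.1 u.2)

lemma gM_le_pairs3 (N H : ℕ) (P : Finset ℕ) (col : ℕ → ℕ) (s : ℝ) :
    (gM 2 N H P col s).card ≤ H * (pairs3 P H s).card := by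
  classical
  have hex : ∀ T ∈ gM 2 N H P col s, ∃ u : ℕ × ℕ × ℕ, u.1 < u.2.1 ∧ u.2.1 < u.2.2 ∧ T = {u.1, u.2.1, u.2.2} := by
    intro T hT
    unfold gM at hT
    rw [mem_filter, mem_powersetCard] at hT
    obtain ⟨a, b, c, hab, hbc, e⟩ := sorted3 hT.1.2
    exact ⟨(a, b, c), hab, hbc, e⟩
  choose! f hf1 hf2 hf3 using hex
  have : (gM 2 N H P col s).card ≤ (range H ×ˢ pairs3 P H s).card := by
    apply card_le_card_of_injOn (fun T => ((f T).1, ((f T).2.2 - (f T).2.1, (f T).2.2 - (f T).1)))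
    · intro T hT
      have hT' := mem_coe.1 hT
      have g1 := hf1 T hT'
      have g2 := hf2 T hT'
      have g3 := hf3 T hT'
      unfold gM at hT'
      rw [mem_filter, mem_powersetCard] at hT'
      obtain ⟨⟨hsub, _⟩, hpos, hge⟩ := hT'
      set a := (f T).1
      set b := (f T).2.1
      set c := (f T).2.2
      have ha : a < H := mem_range.1 (hsub (by rw [g3]; simp))
      have hc : c < H := mem_range.1 (hsub (by rw [g3]; simp))
      have hAdm : Uni.Adm {a, b, c} := by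
        rw [← Pool.Agent.TH891.SG.CT_pos_iff, ← g3]; exact hpos
      have hev := even_trip hAdm
      have hev' := hev
      rw [Nat.even_iff, Nat.even_iff] at hev'
      rw [mem_coe, mem_product, mem_range]
      refine ⟨ha, ?_⟩
      unfold pairs3
      rw [mem_filter, mem_product, mem_Icc, mem_Icc]
      simp only
      rw [S3_eq g1 g2, ← g3]
      refine ⟨⟨⟨by omega, by omega⟩, ⟨by omega, by omega⟩⟩, hev.1, hev.2, by omega, hpos, ?_⟩
      refine hge.trans ?_
      have := mcnt_le_cnt3 (P := P) (col := col) (u := 2 + 1) (v := N - H) g1 g2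
      rw [← g3] at this
      exact_mod_cast this
    · intro T hT T' hT' h
      have hT1 := mem_coe.1 hT
      have hT2 := mem_coe.1 hT'
      simp only [Prod.mk.injEq] at h
      obtain ⟨h1, h2, h3⟩ := h
      have a1 := hf1 T hT1
      have a2 := hf2 T hT1
      have b1 := hf1 T' hT2
      have b2 := hf2 T' hT2
      have c1 : (f T).2.2 = (f T').2.2 := by omega
      have c2 : (f T).2.1 = (f T').2.1 := by omega
      rw [hf3 T hT1, hf3 T' hT2, h1, c1, c2]
  rwa [card_product, card_range] at this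

lemma ph2 {u : ℝ} (hu1 : 2 * u ≤ 1) (hu0 : 0 ≤ u) : Uni.ph 2 u = (1 - u) * (1 - 2 * u) := by
  unfold Uni.ph
  rw [prod_range_succ, prod_range_succ, prod_range_zero, one_mul]
  push_cast
  rw [max_eq_right (by linarith), max_eq_right (by linarith)]
  ring

/-- **triples in arbitrary sets of primes** -/
theorem triples (n : ℕ) (hn : 1 ≤ n) : ∃ κ K : ℝ, 0 < κ ∧ 1 ≤ K ∧ ∀ C : ℝ, ∀ᶠ x : ℝ in atTop,
    ∀ H : ℕ, (H : ℝ) ≤ Real.log x ^ C → ∀ P : Finset ℕ, (∀ p ∈ P, p.Prime ∧ (p : ℝ) ≤ x) →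
      ∀ θ ε : ℝ, 0 ≤ θ → K ≤ ε * (H : ℝ) ^ (3 / 4 : ℝ) → 2 * x ≤ (P.card : ℝ) * H →
        θ + ε ≤ (1 - x / (P.card * H)) * (1 - 2 * (x / (P.card * H))) →
        κ * (ε * ((P.card : ℝ) * Real.log x / x) ^ 3) ^ (1 + 1 / (n : ℝ)) * (H : ℝ) ^ 2 ≤
          ((pairs3 P H (θ * ((P.card : ℝ) ^ 3 / x ^ 2))).card : ℝ) := by
  classical
  obtain ⟨κ, K, hκ, hK, hmain⟩ := main 2 (by norm_num) n hn
  refine ⟨κ, K, hκ, hK, fun C => ?_⟩
  have tF : Tendsto (fun x : ℝ => ⌊x⌋₊) atTop atTop := tendsto_nat_floor_atTop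
  have tN : Tendsto (fun x : ℝ => ((⌊x⌋₊ : ℕ) : ℝ)) atTop atTop := tendsto_natCast_atTop_atTop.comp tF
  have tL : Tendsto (fun x : ℝ => Real.log ((⌊x⌋₊ : ℕ) : ℝ)) atTop atTop := Real.tendsto_log_atTop.comp tN
  set Cp : ℝ := max C 0 with hCp
  have hCp0 : 0 ≤ Cp := le_max_right _ _
  filter_upwards [tF.eventually (hmain (Cp + 1)), tN.eventually_ge_atTop 3,
    tL.eventually_ge_atTop (max 1 (2 ^ Cp)), eventually_ge_atTop (3:ℝ)] with x g1 g2 g3 g4
  intro H hH P hP θ ε hθ hε hPH hθε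
  set N : ℕ := ⌊x⌋₊ with hN
  have hL1 : 1 ≤ Real.log (N:ℝ) := (le_max_left _ _).trans g3
  have hL2 : 2 ^ Cp ≤ Real.log (N:ℝ) := (le_max_right _ _).trans g3
  have hx0 : 0 < x := by linarith
  have hN0 : (0:ℝ) < N := by linarith
  have hNx : (N:ℝ) ≤ x := Nat.floor_le (by linarith)
  have hxN : x ≤ N + 1 := (Nat.lt_floor_add_one x).le
  have hlog1 : Real.log (N:ℝ) ≤ Real.log x := Real.log_le_log (by linarith) hNx
  have hlog2 : Real.log x ≤ 2 * Real.log (N:ℝ) := by
    have : Real.log x ≤ Real.log ((N:ℝ) ^ 2) := Real.log_le_log (by linarith) (by nlinarith)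
    rw [Real.log_pow] at this
    exact_mod_cast this
  have hC : Real.log x ^ C ≤ Real.log (N:ℝ) ^ (Cp + 1) := by
    calc Real.log x ^ C ≤ Real.log x ^ Cp :=
          Real.rpow_le_rpow_of_exponent_le (by linarith) (le_max_left _ _)
      _ ≤ (2 * Real.log (N:ℝ)) ^ Cp := Real.rpow_le_rpow (by linarith) hlog2 hCp0
      _ = 2 ^ Cp * Real.log (N:ℝ) ^ Cp := Real.mul_rpow (by norm_num) (by linarith)
      _ ≤ Real.log (N:ℝ) * Real.log (N:ℝ) ^ Cp := by
          apply mul_le_mul_of_nonneg_right hL2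
          positivity
      _ = Real.log (N:ℝ) ^ (Cp + 1) := by
          rw [Real.rpow_add (by linarith), Real.rpow_one, mul_comm]
  have hPH0 : 0 < (P.card : ℝ) * H := by linarith
  have hu0 : 0 ≤ x / (P.card * H) := by positivity
  have hu1 : 2 * (x / (P.card * H)) ≤ 1 := by
    rw [← mul_div_assoc, div_le_one hPH0]; exact hPH
  have hph : θ + ε ≤ Uni.ph 2 (((1 : ℕ) : ℝ) * N / (H * P.card)) := by
    refine hθε.trans ?_
    rw [← ph2 hu1 hu0]
    apply Uni.ph_anti
    rw [Nat.cast_one, one_mul, mul_comm (H : ℝ)]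
    exact div_le_div_of_nonneg_right hNx hPH0.le
  have h := g1 H (hH.trans hC) P (fun p hp => ⟨(hP p hp).1, Nat.le_floor (hP p hp).2⟩) 1 (fun _ => 0)
    (fun _ _ => Nat.zero_lt_one) θ ε hθ hε hph
  have hH0 : (0:ℝ) < H := by
    rcases (Nat.cast_nonneg (α := ℝ) H).eq_or_lt with h0 | h0
    · rw [← h0, mul_zero] at hPH0; exact absurd hPH0 (lt_irrefl _)
    · exact h0
  have hP0 : (0:ℝ) < P.card := by
    rcases (Nat.cast_nonneg (α := ℝ) P.card).eq_or_lt with h0 | h0
    · rw [← h0, zero_mul] at hPH0; exact absurd hPH0 (lt_irrefl _)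
    · exact h0
  have hε0 : 0 ≤ ε := by
    by_contra hcon
    have : ε * (H:ℝ) ^ (3 / 4 : ℝ) < 0 := mul_neg_of_neg_of_pos (not_le.1 hcon) (by positivity)
    linarith
  simp only [Nat.cast_one, one_pow, div_one, one_mul] at h
  have hsub : (gM 2 N H P (fun _ => 0) (θ * ((P.card : ℝ) ^ (2 + 1) / (N:ℝ) ^ 2))).card ≤
      (gM 2 N H P (fun _ => 0) (θ * ((P.card : ℝ) ^ 3 / x ^ 2))).card := by
    apply card_le_card
    intro T hT
    unfold gM at hT ⊢
    rw [mem_filter] at hT ⊢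
    refine ⟨hT.1, hT.2.1, le_trans ?_ hT.2.2⟩
    apply mul_le_mul_of_nonneg_right _ hT.2.1.le
    apply mul_le_mul_of_nonneg_left _ hθ
    apply div_le_div_of_nonneg_left (by positivity) (by positivity)
    exact pow_le_pow_left₀ hN0.le hNx 2
  have h2 := gM_le_pairs3 N H P (fun _ => 0) (θ * ((P.card : ℝ) ^ 3 / x ^ 2))
  have h3 : ((gM 2 N H P (fun _ => 0) (θ * ((P.card : ℝ) ^ (2 + 1) / (N:ℝ) ^ 2))).card : ℝ) ≤
      H * ((pairs3 P H (θ * ((P.card : ℝ) ^ 3 / x ^ 2))).card : ℝ) := by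
    exact_mod_cast hsub.trans h2
  have h4 := h.trans h3
  have hlogd : Real.log x / x ≤ Real.log N / N := by
    have := Real.log_div_self_antitoneOn (a := (N:ℝ)) (b := x) (by
      rw [Set.mem_Ici]
      have := Real.exp_one_lt_d9
      linarith) (by
      rw [Set.mem_Ici]
      have := Real.exp_one_lt_d9
      linarith) hNx
    exact this
  have h5 : (ε * ((P.card : ℝ) * Real.log x / x) ^ 3) ^ (1 + 1 / (n : ℝ)) ≤
      (ε * ((P.card : ℝ) * Real.log N / N) ^ (2 + 1)) ^ (1 + 1 / (n : ℝ)) := by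
    have hlx : 0 ≤ Real.log x := by linarith
    apply Real.rpow_le_rpow (by positivity)
    · apply mul_le_mul_of_nonneg_left _ hε0
      apply pow_le_pow_left₀ (by positivity)
      rw [mul_div_assoc, mul_div_assoc]
      exact mul_le_mul_of_nonneg_left hlogd hP0.le
    · positivity
  have h6 : H * (κ * (ε * ((P.card : ℝ) * Real.log x / x) ^ 3) ^ (1 + 1 / (n : ℝ)) * (H : ℝ) ^ 2) ≤
      H * ((pairs3 P H (θ * ((P.card : ℝ) ^ 3 / x ^ 2))).card : ℝ) := by
    refine le_trans ?_ h4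
    calc H * (κ * (ε * ((P.card : ℝ) * Real.log x / x) ^ 3) ^ (1 + 1 / (n : ℝ)) * (H : ℝ) ^ 2)
        = κ * (ε * ((P.card : ℝ) * Real.log x / x) ^ 3) ^ (1 + 1 / (n : ℝ)) * (H : ℝ) ^ (2 + 1) := by ring
      _ ≤ _ := by
          apply mul_le_mul_of_nonneg_right _ (by positivity)
          exact mul_le_mul_of_nonneg_left h5 hκ.le
  exact le_of_mul_le_mul_left h6 hH0

end Pool.Agent.Q248.DP
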