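import Mathlib
import Pool.Agent.Q248.DP.Pair

set_option autoImplicit false

/-! Monochromatic patterns with shifts from arbitrary sets, helper248. -/

namespace Pool.Agent.Q248.DP

open Finset Filter Topology Pool.Agent.H387R2

open Classical in
/-- the weight of the patterns with many occurrences, threshold without the singular series -/
theorem weight2 (F : Finset (Finset ℕ)) (m : Finset ℕ → ℝ) {B V P a σ : ℝ} (hV : 0 < V) (hσ : 0 ≤ σ) (hB : 0 ≤ B)
    (hmany : V * P * a ≤ ∑ T ∈ F, m T) (hF : (F.card : ℝ) ≤ P)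
    (hup : ∀ T ∈ F, m T ≤ B * (V * Uni.CT T)) :
    P * (a - σ) ≤ B * ∑ T ∈ F.filter (fun T => σ * V ≤ m T), Uni.CT T := by
  set G := F.filter (fun T => σ * V ≤ m T) with hG
  have hsplit : ∑ T ∈ F, m T ≤ ∑ T ∈ F, σ * V + ∑ T ∈ G, B * (V * Uni.CT T) := by
    rw [hG, sum_filter, ← sum_add_distrib]
    apply sum_le_sum
    intro T hTA
    have hCT := Uni.CT_nonneg T
    have hup' := hup T hTA
    split_ifs with hg
    · have : 0 ≤ σ * V := by positivity
      linarith
    · rw [add_zero]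
      exact (not_le.1 hg).le
  have e1 : ∑ T ∈ F, σ * V = F.card * (σ * V) := by rw [sum_const, nsmul_eq_mul]
  have e2 : ∑ T ∈ G, B * (V * Uni.CT T) = V * (B * ∑ T ∈ G, Uni.CT T) := by
    rw [mul_sum, mul_sum]; exact sum_congr rfl fun T _ => by ring
  rw [e1, e2] at hsplit
  have h5 : F.card * (σ * V) ≤ P * (σ * V) := mul_le_mul_of_nonneg_right hF (by positivity)
  have h6 : V * (P * (a - σ)) ≤ V * (B * ∑ T ∈ G, Uni.CT T) := by
    calc V * (P * (a - σ)) = V * P * a - P * (σ * V) := by ring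
      _ ≤ _ := by linarith
  exact le_of_mul_le_mul_left h6 hV

open Classical in
/-- the patterns in `A` with at least `s` monochromatic occurrences in `S` -/
noncomputable def gA (k N M : ℕ) (A S : Finset ℕ) (col : ℕ → ℕ) (s : ℝ) : Finset (Finset ℕ) :=
  (A.powersetCard (k + 1)).filter (fun T => s ≤ mcnt S col (k + 1) (N - M) T)

/-- **many patterns with shifts from arbitrary sets, in arbitrary coloured sets of primes** -/
theorem mainA (k : ℕ) (hk : 1 ≤ k) : ∃ B : ℝ, 0 < B ∧ ∀ C : ℝ, ∀ᶠ N : ℕ in atTop,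
    ∀ M : ℕ, (M : ℝ) ≤ Real.log N ^ C → ∀ A : Finset ℕ, (∀ t ∈ A, t ≤ M) →
      ∀ S : Finset ℕ, S.Nonempty → (∀ s ∈ S, s.Prime ∧ s ≤ N) →
      ∀ (r : ℕ) (col : ℕ → ℕ), (∀ s ∈ S, col s < r) → ∀ θ ε : ℝ, 0 ≤ θ → 2 / ((M : ℝ) + 1) ≤ ε →
        θ + ε ≤ Uni.ph k (r * N / (A.card * S.card)) →
        ((A.card : ℝ) ^ (k + 1) / (k + 1).factorial) * (ε * (((S.card : ℝ) * Real.log N / N) ^ (k + 1) / r ^ k)) ≤
          B * ∑ T ∈ gA k N M A S col (θ * ((S.card : ℝ) ^ (k + 1) / (r ^ k * N ^ k))), Uni.CT T := by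
  classical
  obtain ⟨B, hB, hup⟩ := Pool.Agent.W218.TX.pi_upper k
  refine ⟨2 * B, by positivity, fun C => ?_⟩
  have tN : Tendsto (fun N : ℕ => (N : ℝ)) atTop atTop := tendsto_natCast_atTop_atTop
  have tL : Tendsto (fun N : ℕ => Real.log (N : ℝ)) atTop atTop := Real.tendsto_log_atTop.comp tN
  filter_upwards [small_M k C, hup C, tL.eventually_ge_atTop 1, eventually_ge_atTop 1] with N h1 h2 h3 hN1
  intro M hM A hA S hSne hS r col hcol θ ε hθ hε hθε
  set L := Real.log (N:ℝ) with hL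
  have hL0 : 0 < L := by linarith
  have hN0 : (0:ℝ) < N := by exact_mod_cast hN1
  have hS0 : (0:ℝ) < S.card := by exact_mod_cast hSne.card_pos
  have hr1 : 1 ≤ r := by
    obtain ⟨s, hs⟩ := hSne
    have := hcol s hs
    omega
  have hr0 : (0:ℝ) < r := by exact_mod_cast hr1
  have hM0 : (0:ℝ) ≤ M := Nat.cast_nonneg M
  have hε0 : 0 < ε := lt_of_lt_of_le (by positivity) hε
  set a : ℝ := (A.card : ℝ) with ha
  have ha00 : 0 ≤ a := Nat.cast_nonneg _
  rcases ha00.eq_or_lt with ha0 | ha0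
  · rw [← ha0, zero_pow (by omega), zero_div, zero_mul]
    have : 0 ≤ ∑ T ∈ gA k N M A S col (θ * ((S.card : ℝ) ^ (k + 1) / (r ^ k * N ^ k))), Uni.CT T :=
      sum_nonneg fun T _ => Uni.CT_nonneg T
    positivity
  set p := Uni.ph k (r * N / (a * S.card)) with hp
  have hp0 : 0 < p := by linarith
  have hu0 : 0 ≤ (r * N / (a * S.card) : ℝ) := by positivity
  have hp1 : p ≤ 1 := Pool.Agent.TH891.SG.ph_le_one k hu0
  have hε1 : ε ≤ 1 := by linarith
  have hθ1 : θ ≤ 1 := by linarith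
  set y0 : ℝ := a * S.card / (r * N) with hy0
  have hinv : (r * N / (a * S.card) : ℝ) = 1 / y0 := by rw [hy0, one_div, inv_div]
  have hy0pos : 0 < y0 := by positivity
  have hu1 : (r * N / (a * S.card) : ℝ) < 1 := by
    by_contra hcon
    rw [not_lt] at hcon
    have : p ≤ 0 := by
      rw [hp]
      unfold Uni.ph
      apply le_of_eq
      apply prod_eq_zero (mem_range.2 hk)
      rw [max_eq_left]
      push_cast
      linarith
    linarith
  have hy1 : 1 ≤ y0 := by
    rw [hinv, div_lt_one hy0pos] at hu1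
    exact hu1.le
  have hAc : A.card ≤ M + 1 := by
    have : A ⊆ range (M + 1) := fun t ht => mem_range.2 (Nat.lt_succ_of_le (hA t ht))
    have := card_le_card this
    rwa [card_range] at this
  have hlow := many_low k N M r (h1 M hM) A S col hA hAc
    (fun s hs => mem_Icc.2 ⟨(hS s hs).1.one_lt.le, (hS s hs).2⟩) hcol (y0 := y0) hy0 hy1
  rw [← hinv, ← hp] at hlow
  have hfac : (0:ℝ) < ((k + 1).factorial : ℝ) := by exact_mod_cast (k + 1).factorial_pos
  set V : ℝ := N / L ^ (k + 1) with hV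
  have hV0 : 0 < V := by positivity
  set Q : ℝ := ((S.card : ℝ) * L / N) ^ (k + 1) / r ^ k with hQ
  have hQ0 : 0 < Q := by positivity
  set W : ℝ := (S.card : ℝ) ^ (k + 1) / (r ^ k * N ^ k) with hW
  have hVQ : V * Q = W := by
    rw [hV, hQ, hW, div_pow, mul_pow, pow_succ (N : ℝ) k]
    field_simp
  have hW0 : 0 < W := by positivity
  have hrNy : r * N * y0 ^ (k + 1) = a ^ (k + 1) * W := by
    rw [hy0, hW, div_pow, mul_pow, mul_pow, pow_succ (r : ℝ) k, pow_succ (N : ℝ) k]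
    field_simp
  rw [hrNy] at hlow
  set P : ℝ := a ^ (k + 1) / (k + 1).factorial with hP
  have hP0 : 0 < P := by positivity
  set m : Finset ℕ → ℝ := fun T => (mcnt S col (k + 1) (N - M) T : ℝ) with hm
  have hmany : V * P * (Q * (p - 1 / (M + 1))) ≤ ∑ T ∈ A.powersetCard (k + 1), m T := by
    have e1 : V * P * (Q * (p - 1 / (M + 1))) = (V * Q) * P * (p - 1 / (M + 1)) := by ring
    rw [e1, hVQ, hP]
    have e2 : W * (a ^ (k + 1) / (k + 1).factorial) * (p - 1 / (M + 1)) =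
        (a ^ (k + 1) * W * (p - 1 / (M + 1))) / (k + 1).factorial := by ring
    rw [e2, div_le_iff₀ hfac]
    linarith
  have hF : ((A.powersetCard (k + 1)).card : ℝ) ≤ P := by
    rw [card_powersetCard, hP, le_div_iff₀ hfac, ha]
    have h4 : A.card.choose (k + 1) * (k + 1).factorial ≤ A.card ^ (k + 1) := by
      rw [mul_comm, ← Nat.descFactorial_eq_factorial_mul_choose]
      exact Nat.descFactorial_le_pow _ _
    exact_mod_cast h4
  have hMN : M ≤ N := by
    have := h1 M hM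
    have hk0 : (0:ℝ) ≤ k := Nat.cast_nonneg k
    have hMr : (M:ℝ) ≤ N := by
      refine le_trans ?_ this
      have c1 : (1:ℝ) ≤ (M:ℝ) + k + 1 := by linarith
      have c2 : (M:ℝ) ≤ ((M:ℝ) + k + 1) ^ 2 := by nlinarith
      have c3 : ((M:ℝ) + k + 1) ^ 2 ≤ ((k:ℝ) + 2) * ((M:ℝ) + k + 1) ^ 2 := by nlinarith
      have c4 : ((k:ℝ) + 2) * ((M:ℝ) + k + 1) ^ 2 ≤ ((k:ℝ) + 2) * ((M:ℝ) + k + 1) ^ 2 * (M + 1) := by
        have : 0 ≤ ((k:ℝ) + 2) * ((M:ℝ) + k + 1) ^ 2 := by positivity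
        nlinarith
      linarith
    exact_mod_cast hMr
  have hupT : ∀ T ∈ A.powersetCard (k + 1), m T ≤ B * (V * Uni.CT T) := by
    intro T hT
    rw [mem_powersetCard] at hT
    have hTM : ∀ t ∈ T, t ≤ M := fun t ht => hA t (hT.1 ht)
    refine le_trans ?_ (h2 T hT.2 (fun t ht => ?_))
    · have hx := mcnt_le_piT (col := col) (fun s hs => (hS s hs).1) hT.2 hTM hMN
      show (mcnt S col (k + 1) (N - M) T : ℝ) ≤ _
      exact_mod_cast hx
    · have h6 : (t:ℝ) ≤ M := by exact_mod_cast hTM t ht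
      exact h6.trans hM
  have hw := weight2 (A.powersetCard (k + 1)) m (σ := θ * Q) hV0 (by positivity) hB.le hmany hF hupT
  have hGeq : (A.powersetCard (k + 1)).filter (fun T => θ * Q * V ≤ m T) =
      gA k N M A S col (θ * W) := by
    unfold gA
    apply filter_congr
    intro T _
    rw [hm, ← hVQ]
    have : θ * Q * V = θ * (V * Q) := by ring
    rw [this]
  rw [hGeq] at hw
  have hgain : Q * ε / 2 ≤ Q * (p - 1 / (M + 1)) - θ * Q := by
    have c1 : (1:ℝ) / (M + 1) ≤ ε / 2 := by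
      have : (2:ℝ) / (M + 1) = 2 * (1 / (M + 1)) := by ring
      linarith
    have c3 : ε / 2 ≤ p - 1 / (M + 1) - θ := by linarith
    calc Q * ε / 2 = Q * (ε / 2) := by ring
      _ ≤ Q * (p - 1 / (M + 1) - θ) := mul_le_mul_of_nonneg_left c3 hQ0.le
      _ = _ := by ring
  have hw2 : P * (Q * ε / 2) ≤ B * ∑ T ∈ gA k N M A S col (θ * W), Uni.CT T :=
    (mul_le_mul_of_nonneg_left hgain hP0.le).trans hw
  calc P * (ε * Q) = 2 * (P * (Q * ε / 2)) := by ring
    _ ≤ 2 * (B * ∑ T ∈ gA k N M A S col (θ * W), Uni.CT T) := by linarith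
    _ = _ := by ring

end Pool.Agent.Q248.DP
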